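import Pool.Agent.L7h42.RH.Stm

/-! [GPA] of project RH (helper42): independent random points are in general position. -/

set_option autoImplicit false

namespace Pool.Agent.L7h22.RH

open Finset MeasureTheory
open Pool.Agent.W296.HL (cr Gen Hv IsBisector GeneralPosition Line)
open Pool.Agent.L7h42.RH

theorem cr_line (p q x : ℝ × ℝ) : cr p q x = 0 ↔
    x ∈ Line (-(q.2 - p.2)) (q.1 - p.1) (-(q.2 - p.2) * p.1 + (q.1 - p.1) * p.2) := by
  unfold cr Line
  simp only [Set.mem_ofPred_eq]
  constructor <;> intro h <;> linarith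

theorem line_ne {p q : ℝ × ℝ} (h : p ≠ q) : -(q.2 - p.2) ≠ 0 ∨ q.1 - p.1 ≠ 0 := by
  by_contra hcon
  push Not at hcon
  apply h
  exact Prod.ext (by linarith [hcon.2]) (by linarith [hcon.1])

theorem cr_null {μ : Measure (ℝ × ℝ)} (hμ : Diffuse μ) {p q : ℝ × ℝ} (h : p ≠ q) :
    μ {x | cr p q x = 0} = 0 := by
  have h1 : {x | cr p q x = 0} =
      Line (-(q.2 - p.2)) (q.1 - p.1) (-(q.2 - p.2) * p.1 + (q.1 - p.1) * p.2) := by
    ext x
    exact cr_line p q x
  rw [h1]
  exact hμ.2 _ _ _ (line_ne h)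

theorem pt_null {μ : Measure (ℝ × ℝ)} (hμ : Diffuse μ) (p : ℝ × ℝ) : μ {x | x = p} = 0 := by
  refine measure_mono_null ?_ (hμ.2 1 0 p.1 (Or.inl one_ne_zero))
  intro x hx
  simp only [Set.mem_ofPred_eq] at hx
  simp [Line, hx]

theorem cr_meas {α : Type*} [MeasurableSpace α] {f g h : α → ℝ × ℝ} (hf : Measurable f)
    (hg : Measurable g) (hh : Measurable h) : Measurable (fun a => cr (f a) (g a) (h a)) := by
  unfold cr
  fun_prop

/-- a null set given the other coordinates -/
theorem slice {m : ℕ} (μ : Measure (ℝ × ℝ)) [IsProbabilityMeasure μ] (k : Fin (m + 1))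
    (A : Set ((ℝ × ℝ) × (Fin m → ℝ × ℝ))) (hA : MeasurableSet A)
    (h : ∀ Y, μ {x | (x, Y) ∈ A} = 0) :
    ∀ᵐ X ∂(Measure.pi fun _ : Fin (m + 1) => μ), (X k, fun l => X (k.succAbove l)) ∉ A := by
  have h1 : (μ.prod (Measure.pi fun _ : Fin m => μ)) A = 0 := by
    rw [Measure.prod_apply_symm hA]
    rw [lintegral_eq_zero_of_ae_eq_zero]
    filter_upwards with Y
    exact h Y
  have h2 := (measurePreserving_piFinSuccAbove (fun _ : Fin (m + 1) => μ) k)
  have h3 : ∀ᵐ z ∂(μ.prod (Measure.pi fun _ : Fin m => μ)), z ∉ A := by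
    rw [ae_iff]
    simpa using h1
  have h4 := h2.quasiMeasurePreserving.ae h3
  filter_upwards [h4] with X hX
  exact hX

/-- [GPA] -/
theorem s_GPA : S_GPA := by
  intro μ hμ n
  have := hμ.1
  cases n with
  | zero =>
    filter_upwards with X
    refine ⟨fun i => i.elim0, ?_⟩
    intro a b c _ p hp
    simp at hp
  | succ m =>
    have h1 : ∀ᵐ X ∂(Measure.pi fun _ : Fin (m + 1) => μ), ∀ (k : Fin (m + 1)) (i : Fin m),
        X k ≠ X (k.succAbove i) := by
      rw [ae_all_iff]
      intro k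
      rw [ae_all_iff]
      intro i
      have h2 := slice μ k {z | z.1 = z.2 i} (measurableSet_eq_fun (by fun_prop) (by fun_prop))
        (fun Y => by
          have h3 : {x | (x, Y) ∈ {z : (ℝ × ℝ) × (Fin m → ℝ × ℝ) | z.1 = z.2 i}} = {x | x = Y i} := by
            ext x
            simp
          rw [h3]
          exact pt_null hμ _)
      filter_upwards [h2] with X hX
      exact hX
    have h2 : ∀ᵐ X ∂(Measure.pi fun _ : Fin (m + 1) => μ), ∀ (k : Fin (m + 1)) (i j : Fin m),
        X (k.succAbove i) ≠ X (k.succAbove j) →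
        cr (X (k.succAbove i)) (X (k.succAbove j)) (X k) ≠ 0 := by
      rw [ae_all_iff]
      intro k
      rw [ae_all_iff]
      intro i
      rw [ae_all_iff]
      intro j
      have hm1 : MeasurableSet {z : (ℝ × ℝ) × (Fin m → ℝ × ℝ) | z.2 i ≠ z.2 j} :=
        (measurableSet_eq_fun (by fun_prop) (by fun_prop)).compl
      have hm2 : MeasurableSet {z : (ℝ × ℝ) × (Fin m → ℝ × ℝ) | cr (z.2 i) (z.2 j) z.1 = 0} :=
        measurableSet_eq_fun (cr_meas (by fun_prop) (by fun_prop) (by fun_prop)) measurable_const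
      have h3 := slice μ k ({z | z.2 i ≠ z.2 j} ∩ {z | cr (z.2 i) (z.2 j) z.1 = 0}) (hm1.inter hm2)
        (fun Y => by
          by_cases hY : Y i = Y j
          · have h4 : {x | (x, Y) ∈ ({z : (ℝ × ℝ) × (Fin m → ℝ × ℝ) | z.2 i ≠ z.2 j} ∩
                {z | cr (z.2 i) (z.2 j) z.1 = 0})} = ∅ := by
              ext x
              simp [hY]
            rw [h4, measure_empty]
          · refine measure_mono_null ?_ (cr_null hμ hY)
            intro x hx
            exact hx.2)
      filter_upwards [h3] with X hX hne h0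
      exact hX ⟨hne, h0⟩
    filter_upwards [h1, h2] with X hX1 hX2
    have hinj : Function.Injective X := by
      intro i k hik
      by_contra hne
      obtain ⟨l, rfl⟩ := Fin.exists_succAbove_eq hne
      exact hX1 k l hik.symm
    refine ⟨hinj, ?_⟩
    intro a b c hab p hp q hq r hr hpq hpr hqr hL
    rw [mem_image] at hp hq hr
    obtain ⟨i, -, rfl⟩ := hp
    obtain ⟨j, -, rfl⟩ := hq
    obtain ⟨k, -, rfl⟩ := hr
    have hik : i ≠ k := fun h => hpr (by rw [h])
    have hjk : j ≠ k := fun h => hqr (by rw [h])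
    obtain ⟨i', rfl⟩ := Fin.exists_succAbove_eq hik
    obtain ⟨j', rfl⟩ := Fin.exists_succAbove_eq hjk
    apply hX2 k i' j' hpq
    obtain ⟨h3, h4, h5⟩ := hL
    simp only [Line, Set.mem_ofPred_eq] at h3 h4 h5
    set p := X (k.succAbove i')
    set q := X (k.succAbove j')
    set r := X k
    unfold cr
    rcases hab with ha | hb
    · have h6 : a * ((q.1 - p.1) * (r.2 - p.2) - (q.2 - p.2) * (r.1 - p.1)) = 0 := by
        have e1 : a * (q.1 - p.1) = -(b * (q.2 - p.2)) := by linarith
        have e2 : a * (r.1 - p.1) = -(b * (r.2 - p.2)) := by linarith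
        linear_combination (r.2 - p.2) * e1 - (q.2 - p.2) * e2
      exact (mul_eq_zero.1 h6).resolve_left ha
    · have h6 : b * ((q.1 - p.1) * (r.2 - p.2) - (q.2 - p.2) * (r.1 - p.1)) = 0 := by
        have e1 : b * (q.2 - p.2) = -(a * (q.1 - p.1)) := by linarith
        have e2 : b * (r.2 - p.2) = -(a * (r.1 - p.1)) := by linarith
        linear_combination (q.1 - p.1) * e2 - (r.1 - p.1) * e1
      exact (mul_eq_zero.1 h6).resolve_left hb

end Pool.Agent.L7h22.RH
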