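import Pool.Agent.L7h42.RH.Stm

/-! [HYP] of project RH (helper42): the weights `C(j, m) C(M - j, m)`. -/

set_option autoImplicit false

namespace Pool.Agent.L7h22.RH

open Finset
open Pool.Agent.L7h42.RH

/-- the weights -/
def ww (M m j : ℕ) : ℕ := j.choose m * (M - j).choose m

theorem ww_symm (M m j : ℕ) (hj : j ≤ M) : ww M m (M - j) = ww M m j := by
  unfold ww
  rw [Nat.sub_sub_self hj, mul_comm]

theorem ww_step (M m j : ℕ) (h : 2 * j + 1 ≤ M) : ww M m j ≤ ww M m (j + 1) := by
  unfold ww
  rcases Nat.lt_or_ge j m with hjm | hjm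
  · rw [Nat.choose_eq_zero_of_lt hjm, zero_mul]
    exact Nat.zero_le _
  · obtain ⟨a, ha⟩ : ∃ a, M - j = a + 1 := ⟨M - j - 1, by omega⟩
    have ha2 : M - (j + 1) = a := by omega
    have haj : j ≤ a := by omega
    rw [ha, ha2]
    have h1 := Nat.choose_mul_succ_eq j m
    have h2 := Nat.choose_mul_succ_eq a m
    obtain ⟨x, hx⟩ : ∃ x, j = m + x := ⟨j - m, by omega⟩
    obtain ⟨y, hy⟩ : ∃ y, a = m + y := ⟨a - m, by omega⟩
    have e1 : j + 1 - m = x + 1 := by omega
    have e2 : a + 1 - m = y + 1 := by omega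
    rw [e1] at h1
    rw [e2] at h2
    have hxy : x ≤ y := by omega
    set A := j.choose m
    set A' := (j + 1).choose m
    set B := (a + 1).choose m
    set B' := a.choose m
    have h3 : (A * B) * ((j + 1) * (y + 1)) ≤ (A' * B') * ((j + 1) * (y + 1)) := by
      calc (A * B) * ((j + 1) * (y + 1)) = (A * (j + 1)) * (B * (y + 1)) := by ring
        _ = (A' * (x + 1)) * (B' * (a + 1)) := by rw [h1, h2]
        _ = (A' * B') * ((x + 1) * (a + 1)) := by ring
        _ ≤ (A' * B') * ((j + 1) * (y + 1)) := by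
            apply Nat.mul_le_mul_left
            rw [hx, hy]
            nlinarith
    exact Nat.le_of_mul_le_mul_right h3 (by positivity)

theorem ww_mono (M m i j : ℕ) (hij : i ≤ j) (hj : 2 * j ≤ M + 1) : ww M m i ≤ ww M m j := by
  induction j, hij using Nat.le_induction with
  | base => exact le_rfl
  | succ j hij ih => exact (ih (by omega)).trans (ww_step M m j (by omega))

theorem ww_uni (M m i j k : ℕ) (hij : i ≤ j) (hjk : j ≤ k) (hk : k ≤ M) :
    min (ww M m i) (ww M m k) ≤ ww M m j := by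
  rcases Nat.lt_or_ge (M + 1) (2 * j) with h | h
  · refine (min_le_right _ _).trans ?_
    rw [← ww_symm M m k hk, ← ww_symm M m j (hjk.trans hk)]
    exact ww_mono M m _ _ (by omega) (by omega)
  · exact (min_le_left _ _).trans (ww_mono M m i j hij h)

theorem sum_choose (M : ℕ) : ∀ m n : ℕ,
    ∑ j ∈ range (M + 1), j.choose m * (M - j).choose n = (M + 1).choose (m + n + 1) := by
  induction M with
  | zero =>
    intro m n
    simp only [zero_add, range_one, sum_singleton, Nat.zero_sub]
    rcases m with _ | m <;> rcases n with _ | n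
    · simp
    · simp
      exact (Nat.choose_eq_zero_of_lt (by omega)).symm
    · simp
      exact (Nat.choose_eq_zero_of_lt (by omega)).symm
    · simp
      exact (Nat.choose_eq_zero_of_lt (by omega)).symm
  | succ M ih =>
    intro m n
    rw [Finset.sum_range_succ]
    rcases n with _ | n
    · have h1 := ih m 0
      simp only [Nat.choose_zero_right, mul_one, add_zero] at h1 ⊢
      rw [h1, Nat.choose_succ_succ (M + 1) m]
      ring
    · simp only [Nat.sub_self, Nat.choose_zero_succ, mul_zero, add_zero]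
      have h1 : ∀ j ∈ range (M + 1), j.choose m * (M + 1 - j).choose (n + 1) =
          j.choose m * (M - j).choose n + j.choose m * (M - j).choose (n + 1) := by
        intro j hj
        rw [mem_range] at hj
        have h2 : M + 1 - j = (M - j) + 1 := by omega
        rw [h2, Nat.choose_succ_succ]
        ring
      rw [Finset.sum_congr rfl h1, Finset.sum_add_distrib, ih m n, ih m (n + 1)]
      rw [show m + (n + 1) + 1 = (m + n + 1) + 1 by ring, Nat.choose_succ_succ (M + 1) (m + n + 1)]

theorem cb_up (x : ℕ) : (2 * x + 1) * x.centralBinom ^ 2 ≤ 16 ^ x := by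
  induction x with
  | zero => simp
  | succ x ih =>
    have h1 := Nat.succ_mul_centralBinom_succ x
    have h2 : (x + 1) ^ 2 * ((2 * (x + 1) + 1) * (x + 1).centralBinom ^ 2) ≤
        (x + 1) ^ 2 * 16 ^ (x + 1) := by
      calc (x + 1) ^ 2 * ((2 * (x + 1) + 1) * (x + 1).centralBinom ^ 2)
          = (2 * x + 3) * ((x + 1) * (x + 1).centralBinom) ^ 2 := by ring
        _ = (2 * x + 3) * (2 * (2 * x + 1) * x.centralBinom) ^ 2 := by rw [h1]
        _ = (4 * (2 * x + 3) * (2 * x + 1)) * ((2 * x + 1) * x.centralBinom ^ 2) := by ring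
        _ ≤ (4 * (2 * x + 3) * (2 * x + 1)) * 16 ^ x := Nat.mul_le_mul_left _ ih
        _ ≤ (16 * (x + 1) ^ 2) * 16 ^ x := by
            apply Nat.mul_le_mul_right
            nlinarith
        _ = _ := by ring
    exact Nat.le_of_mul_le_mul_left h2 (by positivity)

theorem cb_low (x : ℕ) (hx : 1 ≤ x) : 16 ^ x ≤ 4 * x * x.centralBinom ^ 2 := by
  induction x, hx using Nat.le_induction with
  | base => norm_num [Nat.centralBinom]
  | succ x hx ih =>
    have h1 := Nat.succ_mul_centralBinom_succ x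
    have h2 : (x + 1) * x * 16 ^ (x + 1) ≤
        (x + 1) * x * (4 * (x + 1) * (x + 1).centralBinom ^ 2) := by
      calc (x + 1) * x * 16 ^ (x + 1) = (16 * x * (x + 1)) * 16 ^ x := by ring
        _ ≤ (16 * x * (x + 1)) * (4 * x * x.centralBinom ^ 2) := Nat.mul_le_mul_left _ ih
        _ = (16 * x * (4 * x * (x + 1))) * x.centralBinom ^ 2 := by ring
        _ ≤ (16 * x * (2 * x + 1) ^ 2) * x.centralBinom ^ 2 := by
            apply Nat.mul_le_mul_right
            apply Nat.mul_le_mul_left
            nlinarith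
        _ = 4 * x * (2 * (2 * x + 1) * x.centralBinom) ^ 2 := by ring
        _ = 4 * x * ((x + 1) * (x + 1).centralBinom) ^ 2 := by rw [h1]
        _ = _ := by ring
    exact Nat.le_of_mul_le_mul_left h2 (by positivity)

theorem cb_id (a m : ℕ) (h : m ≤ a) : a.choose m ^ 2 * a.centralBinom =
    (2 * a).choose (2 * m) * (m.centralBinom * (a - m).centralBinom) := by
  have h1 := Nat.choose_mul_factorial_mul_factorial h
  have h2 := Nat.choose_mul_factorial_mul_factorial (show a ≤ 2 * a by omega)
  have h3 := Nat.choose_mul_factorial_mul_factorial (show 2 * m ≤ 2 * a by omega)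
  have h4 := Nat.choose_mul_factorial_mul_factorial (show m ≤ 2 * m by omega)
  have h5 := Nat.choose_mul_factorial_mul_factorial (show a - m ≤ 2 * (a - m) by omega)
  rw [show 2 * a - a = a by omega] at h2
  rw [show 2 * a - 2 * m = 2 * (a - m) by omega] at h3
  rw [show 2 * m - m = m by omega] at h4
  rw [show 2 * (a - m) - (a - m) = a - m by omega] at h5
  unfold Nat.centralBinom
  have hpos : 0 < (m.factorial * (a - m).factorial) ^ 2 := by
    have := Nat.factorial_pos m
    have := Nat.factorial_pos (a - m)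
    positivity
  apply Nat.eq_of_mul_eq_mul_right hpos
  calc a.choose m ^ 2 * (2 * a).choose a * (m.factorial * (a - m).factorial) ^ 2
      = (2 * a).choose a * (a.choose m * m.factorial * (a - m).factorial) *
          (a.choose m * m.factorial * (a - m).factorial) := by ring
    _ = (2 * a).factorial := by rw [h1, h2]
    _ = (2 * a).choose (2 * m) * (2 * m).factorial * (2 * (a - m)).factorial := h3.symm
    _ = (2 * a).choose (2 * m) * ((2 * m).choose m * m.factorial * m.factorial) *
          ((2 * (a - m)).choose (a - m) * (a - m).factorial * (a - m).factorial) := by rw [h4, h5]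
    _ = _ := by ring

theorem even_bd (a m : ℕ) (h : 2 * m + 1 ≤ a) :
    a.choose m ^ 4 * (m + 1) ≤ 4 * (2 * a).choose (2 * m) ^ 2 := by
  have h1 := cb_id a m (by omega)
  have h2 := cb_up m
  have h3 := cb_up (a - m)
  have h4 := cb_low a (by omega)
  have h5 : 16 ^ a = 16 ^ m * 16 ^ (a - m) := by
    rw [← pow_add]
    congr 1
    omega
  set C := a.choose m
  set D := (2 * a).choose (2 * m)
  set x := m.centralBinom
  set y := (a - m).centralBinom
  set z := a.centralBinom
  have h6 : (C ^ 4 * (m + 1)) * (a * 16 ^ a) ≤ (4 * D ^ 2) * (a * 16 ^ a) := by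
    calc (C ^ 4 * (m + 1)) * (a * 16 ^ a)
        ≤ (C ^ 4 * ((2 * m + 1) * (2 * (a - m) + 1))) * 16 ^ a := by
          rw [mul_assoc, mul_assoc]
          apply Nat.mul_le_mul_left
          rw [← mul_assoc]
          apply Nat.mul_le_mul_right
          apply Nat.mul_le_mul <;> omega
      _ ≤ (C ^ 4 * ((2 * m + 1) * (2 * (a - m) + 1))) * (4 * a * z ^ 2) := Nat.mul_le_mul_left _ h4
      _ = (4 * a * ((2 * m + 1) * (2 * (a - m) + 1))) * (C ^ 2 * z) ^ 2 := by ring
      _ = (4 * a * ((2 * m + 1) * (2 * (a - m) + 1))) * (D * (x * y)) ^ 2 := by rw [h1]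
      _ = (4 * a * D ^ 2) * (((2 * m + 1) * x ^ 2) * ((2 * (a - m) + 1) * y ^ 2)) := by ring
      _ ≤ (4 * a * D ^ 2) * (16 ^ m * 16 ^ (a - m)) :=
          Nat.mul_le_mul_left _ (Nat.mul_le_mul h2 h3)
      _ = _ := by rw [h5]; ring
  exact Nat.le_of_mul_le_mul_right h6 (Nat.mul_pos (by omega) (by positivity))

theorem ww_max (M m j : ℕ) (hj : j ≤ M) : ww M m j ≤ ww M m (M / 2) := by
  rcases Nat.lt_or_ge (M / 2) j with h | h
  · rw [← ww_symm M m j hj]
    exact ww_mono M m _ _ (by omega) (by omega)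
  · exact ww_mono M m _ _ h (by omega)

theorem ww_bd (M m j : ℕ) (hM : 4 * m + 2 ≤ M) (hj : j ≤ M) :
    ww M m j ^ 2 * (m + 1) ≤ 64 * M.choose (2 * m) ^ 2 := by
  have h0 : ww M m j ^ 2 * (m + 1) ≤ ww M m (M / 2) ^ 2 * (m + 1) :=
    Nat.mul_le_mul_right _ (Nat.pow_le_pow_left (ww_max M m j hj) 2)
  refine h0.trans ?_
  rcases Nat.even_or_odd' M with ⟨a, ha | ha⟩
  · have h1 : M / 2 = a := by omega
    have h2 : M - a = a := by omega
    unfold ww
    rw [h1, h2, ha]
    have h3 := even_bd a m (by omega)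
    calc (a.choose m * a.choose m) ^ 2 * (m + 1) = a.choose m ^ 4 * (m + 1) := by ring
      _ ≤ 4 * (2 * a).choose (2 * m) ^ 2 := h3
      _ ≤ _ := by nlinarith [sq_nonneg ((2 * a).choose (2 * m))]
  · have h1 : M / 2 = a := by omega
    have h2 : M - a = a + 1 := by omega
    unfold ww
    rw [h1, h2, ha]
    have h3 := even_bd (a + 1) m (by omega)
    have h4 : a.choose m ≤ (a + 1).choose m := Nat.choose_le_choose m (by omega)
    -- the binomial coefficients
    have h5 := Nat.choose_mul_succ_eq (2 * a + 1) (2 * m)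
    have h6 : (2 * (a + 1)).choose (2 * m) ≤ 2 * (2 * a + 1).choose (2 * m) := by
      obtain ⟨x, hx⟩ : ∃ x, a = 2 * m + x := ⟨a - 2 * m, by omega⟩
      have e1 : 2 * a + 1 + 1 - 2 * m = 2 * m + 2 * x + 2 := by omega
      rw [e1, show 2 * a + 1 + 1 = 2 * (a + 1) by ring] at h5
      have h7 : (2 * (a + 1)).choose (2 * m) * (2 * m + 2 * x + 2) ≤
          (2 * (2 * a + 1).choose (2 * m)) * (2 * m + 2 * x + 2) := by
        rw [← h5]
        have h8 : 2 * (a + 1) ≤ 2 * (2 * m + 2 * x + 2) := by omega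
        calc (2 * a + 1).choose (2 * m) * (2 * (a + 1))
            ≤ (2 * a + 1).choose (2 * m) * (2 * (2 * m + 2 * x + 2)) := Nat.mul_le_mul_left _ h8
          _ = _ := by ring
      exact Nat.le_of_mul_le_mul_right h7 (by positivity)
    calc (a.choose m * (a + 1).choose m) ^ 2 * (m + 1)
        ≤ ((a + 1).choose m * (a + 1).choose m) ^ 2 * (m + 1) := by
          apply Nat.mul_le_mul_right
          apply Nat.pow_le_pow_left
          exact Nat.mul_le_mul_right _ h4
      _ = (a + 1).choose m ^ 4 * (m + 1) := by ring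
      _ ≤ 4 * (2 * (a + 1)).choose (2 * m) ^ 2 := h3
      _ ≤ 4 * (2 * (2 * a + 1).choose (2 * m)) ^ 2 :=
          Nat.mul_le_mul_left _ (Nat.pow_le_pow_left h6 2)
      _ ≤ _ := by nlinarith [sq_nonneg ((2 * a + 1).choose (2 * m))]

/-- [HYP] -/
theorem s_HYP : S_HYP := by
  intro m M hM
  refine ⟨fun i j k hij hjk hk => ww_uni M m i j k hij hjk hk, ?_, ?_⟩
  · intro j hj
    have h1 : ((ww M m j : ℕ) : ℝ) ^ 2 * (m + 1) ≤ 64 * (M.choose (2 * m) : ℝ) ^ 2 := by
      exact_mod_cast ww_bd M m j hM hj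
    have h2 : (0 : ℝ) ≤ m + 1 := by positivity
    have h3 : (((ww M m j : ℕ) : ℝ) * Real.sqrt (m + 1)) ^ 2 ≤ (8 * (M.choose (2 * m) : ℝ)) ^ 2 := by
      rw [mul_pow, Real.sq_sqrt h2]
      linarith
    exact (abs_le_of_sq_le_sq' h3 (by positivity)).2
  · have h1 := sum_choose M m m
    rw [show m + m + 1 = 2 * m + 1 by ring] at h1
    exact h1

end Pool.Agent.L7h22.RH
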