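import Pool.Agent.L7h22.RH.Mea

/-! [IID] of project RH (helper42): from finite sets to independent points. -/

set_option autoImplicit false

namespace Pool.Agent.L7h22.RH

open Finset MeasureTheory
open Pool.Agent.W296.HL (cr Gen Hv IsBisector GeneralPosition Line)
open Pool.Agent.L7h42.RH

theorem mp_comp {n N : ℕ} (μ : Measure (ℝ × ℝ)) [IsProbabilityMeasure μ] (e : Fin n → Fin N)
    (he : Function.Injective e) :
    MeasurePreserving (fun Y : Fin N → ℝ × ℝ => fun i => Y (e i))
      (Measure.pi fun _ : Fin N => μ) (Measure.pi fun _ : Fin n => μ) := by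
  refine ⟨by fun_prop, ?_⟩
  have h1 : ProbabilityTheory.iIndepFun (fun (i : Fin N) (ω : Fin N → ℝ × ℝ) => ω i)
      (Measure.pi fun _ : Fin N => μ) :=
    ProbabilityTheory.iIndepFun_pi (X := fun _ => id) (fun _ => aemeasurable_id)
  have h2 := h1.precomp he
  rw [ProbabilityTheory.iIndepFun_iff_map_fun_eq_pi_map (fun i => (measurable_pi_apply _).aemeasurable)] at h2
  rw [h2]
  congr 1
  funext i
  exact (measurePreserving_eval (fun _ : Fin N => μ) (e i)).map_eq

theorem hp_le {n : ℕ} (X : Fin n → ℝ × ℝ) : hp X ≤ n * n := by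
  classical
  unfold hp
  refine (Finset.card_le_univ _).trans ?_
  rw [Fintype.card_prod, Fintype.card_fin]

theorem hp_int {n : ℕ} (μ : Measure (ℝ × ℝ)) [IsProbabilityMeasure μ] :
    Integrable (fun X : Fin n → ℝ × ℝ => (hp X : ℝ)) (Measure.pi fun _ : Fin n => μ) := by
  refine Integrable.mono' (integrable_const ((n * n : ℕ) : ℝ)) ?_ ?_
  · have h1 : Measurable (fun X : Fin n → ℝ × ℝ => (hp X : ℝ)) :=
      (measurable_from_top (f := fun k : ℕ => (k : ℝ))).comp (meas_hp n)
    exact h1.aestronglyMeasurable
  · filter_upwards with X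
    rw [Real.norm_eq_abs, abs_of_nonneg (Nat.cast_nonneg _)]
    exact_mod_cast hp_le X

/-- [IID] -/
theorem s_IID (hG : S_GPA) (hM : S_MEA) : S_IID := by
  classical
  intro μ hμ n N C hnN hQ
  have := hμ.1
  have hbis : (fun X : Fin n → ℝ × ℝ => (bis X : ℝ)) =ᵐ[Measure.pi fun _ : Fin n => μ]
      fun X => (hp X : ℝ) := by
    filter_upwards [hG μ hμ n] with X hX
    rw [(hM n).2 X hX.1 hX.2]
  refine ⟨(hp_int μ).congr hbis.symm, ?_⟩
  rw [integral_congr_ae hbis]
  -- the sum over the subsets of the N points
  have hcomp : ∀ T ∈ powersetCard n (univ : Finset (Fin N)), ∃ e : Fin n → Fin N,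
      Function.Injective e ∧ univ.image e = T := by
    intro T hT
    rw [mem_powersetCard] at hT
    refine ⟨T.orderEmbOfFin hT.2, (T.orderEmbOfFin hT.2).injective, ?_⟩
    ext x
    simp only [mem_image, mem_univ, true_and]
    have h1 := Finset.range_orderEmbOfFin T hT.2
    have h2 : x ∈ Set.range (T.orderEmbOfFin hT.2) ↔ x ∈ (T : Set (Fin N)) := by rw [h1]
    rw [Set.mem_range, Finset.mem_coe] at h2
    exact h2
  have hne : Nonempty (Fin n → Fin N) := ⟨Fin.castLE hnN⟩
  choose! e he1 he2 using hcomp
  have hae : ∀ᵐ Y ∂(Measure.pi fun _ : Fin N => μ),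
      ∑ T ∈ powersetCard n (univ : Finset (Fin N)), (hp (fun i => Y (e T i)) : ℝ) ≤
        C * (N.choose n : ℝ) := by
    filter_upwards [hG μ hμ N] with Y hY
    obtain ⟨hY1, hY2⟩ := hY
    have h1 := hQ (univ.image Y) hY2 (by
      rw [Finset.card_image_of_injective _ hY1, Finset.card_univ, Fintype.card_fin])
    refine le_trans (le_of_eq ?_) h1
    have h2 : powersetCard n (univ.image Y) =
        (powersetCard n (univ : Finset (Fin N))).image (fun T => T.image Y) := by
      ext S
      simp only [mem_powersetCard, mem_image]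
      constructor
      · rintro ⟨h3, h4⟩
        refine ⟨univ.filter (fun l => Y l ∈ S), ⟨subset_univ _, ?_⟩, ?_⟩
        · rw [← h4, ← Finset.card_image_of_injective _ hY1]
          congr 1
          ext x
          simp only [mem_image, mem_filter, mem_univ, true_and]
          constructor
          · rintro ⟨l, hl, rfl⟩
            exact hl
          · intro hx
            obtain ⟨l, -, rfl⟩ := mem_image.1 (h3 hx)
            exact ⟨l, hx, rfl⟩
        · ext x
          simp only [mem_image, mem_filter, mem_univ, true_and]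
          constructor
          · rintro ⟨l, hl, rfl⟩
            exact hl
          · intro hx
            obtain ⟨l, -, rfl⟩ := mem_image.1 (h3 hx)
            exact ⟨l, hx, rfl⟩
      · rintro ⟨T, ⟨-, hT⟩, rfl⟩
        exact ⟨Finset.image_subset_image (subset_univ _), by
          rw [Finset.card_image_of_injective _ hY1, hT]⟩
    rw [h2, Finset.sum_image]
    · apply Finset.sum_congr rfl
      intro T hT
      have h3 : Function.Injective (fun i => Y (e T i)) := hY1.comp (he1 T hT)
      have h4 : univ.image (fun i => Y (e T i)) = T.image Y := by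
        have h5 : (univ.image (e T)).image Y = T.image Y := by rw [he2 T hT]
        rw [← h5, Finset.image_image]
        rfl
      have h5 : GeneralPosition (univ.image (fun i => Y (e T i))) := by
        rw [h4]
        intro a b c hab p hp q hq r hr
        exact hY2 a b c hab p (Finset.image_subset_image (subset_univ _) hp) q
          (Finset.image_subset_image (subset_univ _) hq) r
          (Finset.image_subset_image (subset_univ _) hr)
      have h6 := (hM n).2 _ h3 h5
      rw [← h6]
      unfold bis
      rw [h4]
    · intro T _ T' _ h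
      exact Finset.image_injective hY1 h
  have hint : ∀ T ∈ powersetCard n (univ : Finset (Fin N)),
      Integrable (fun Y : Fin N → ℝ × ℝ => (hp (fun i => Y (e T i)) : ℝ))
        (Measure.pi fun _ : Fin N => μ) := by
    intro T hT
    exact (mp_comp μ (e T) (he1 T hT)).integrable_comp_of_integrable (hp_int μ)
  have hval : ∀ T ∈ powersetCard n (univ : Finset (Fin N)),
      ∫ Y, (hp (fun i => Y (e T i)) : ℝ) ∂(Measure.pi fun _ : Fin N => μ) =
        ∫ X, (hp X : ℝ) ∂(Measure.pi fun _ : Fin n => μ) := by
    intro T hT
    have h1 := (mp_comp μ (e T) (he1 T hT)).map_eq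
    rw [← h1, integral_map (mp_comp μ (e T) (he1 T hT)).measurable.aemeasurable]
    rw [h1]
    exact (hp_int μ).aestronglyMeasurable
  have h1 := integral_mono_ae (integrable_finsetSum _ hint) (integrable_const _) hae
  rw [integral_finsetSum _ hint, Finset.sum_congr rfl hval, Finset.sum_const, card_powersetCard,
    Finset.card_univ, Fintype.card_fin, nsmul_eq_mul, integral_const] at h1
  rw [probReal_univ, one_smul] at h1
  have h2 : (0 : ℝ) < N.choose n := by exact_mod_cast Nat.choose_pos hnN
  rw [mul_comm C] at h1
  exact le_of_mul_le_mul_left h1 h2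

end Pool.Agent.L7h22.RH
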