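import Pool.Agent.L7h22.RH.Gpa

/-! [MEA] of project RH (helper42): measurability of the number of halving pairs. -/

set_option autoImplicit false

namespace Pool.Agent.L7h22.RH

open Finset MeasureTheory
open Pool.Agent.W296.HL (cr Gen Hv IsBisector GeneralPosition Line cr_swap hv_of_line)
open Pool.Agent.L7h42.RH

theorem meas_card {n : ℕ} (p : (Fin n → ℝ × ℝ) → Fin n → Prop) [∀ X l, Decidable (p X l)]
    (h : ∀ l, MeasurableSet {X | p X l}) :
    Measurable (fun X : Fin n → ℝ × ℝ => #{l | p X l}) := by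
  have h1 : (fun X : Fin n → ℝ × ℝ => #{l | p X l}) = fun X => ∑ l : Fin n, if p X l then 1 else 0 := by
    funext X
    rw [Finset.card_filter]
  rw [h1]
  apply Finset.measurable_sum
  intro l _
  exact Measurable.ite (h l) measurable_const measurable_const

theorem meas_HP {n : ℕ} (i j : Fin n) : MeasurableSet {X : Fin n → ℝ × ℝ | HP X i j} := by
  have h1 : Measurable (fun X : Fin n → ℝ × ℝ => #{l | 0 < cr (X i) (X j) (X l)}) :=
    meas_card _ (fun l => measurableSet_lt measurable_const
      (cr_meas (by fun_prop) (by fun_prop) (by fun_prop)))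
  have h2 : Measurable (fun X : Fin n → ℝ × ℝ => #{l | cr (X i) (X j) (X l) < 0}) :=
    meas_card _ (fun l => measurableSet_lt
      (cr_meas (by fun_prop) (by fun_prop) (by fun_prop)) measurable_const)
  exact (h1 (measurableSet_singleton (n / 2 - 1))).inter (h2 (measurableSet_singleton (n / 2 - 1)))

theorem meas_hp (n : ℕ) : Measurable (fun X : Fin n → ℝ × ℝ => hp X) := by
  classical
  have h1 : (fun X : Fin n → ℝ × ℝ => hp X) =
      fun X => ∑ z : Fin n × Fin n, if z.1 < z.2 ∧ HP X z.1 z.2 then 1 else 0 := by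
    funext X
    unfold hp
    rw [Finset.card_filter]
  rw [h1]
  apply Finset.measurable_sum
  intro z _
  refine Measurable.ite ?_ measurable_const measurable_const
  by_cases hz : z.1 < z.2
  · simp only [hz, true_and]
    exact meas_HP z.1 z.2
  · simp only [hz, false_and]
    exact MeasurableSet.empty

theorem card_im {n : ℕ} {X : Fin n → ℝ × ℝ} (hX : Function.Injective X) (p : ℝ × ℝ → Prop)
    [DecidablePred p] [DecidableEq (ℝ × ℝ)] :
    #{x ∈ (univ : Finset (Fin n)).image X | p x} = #{l : Fin n | p (X l)} := by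
  rw [Finset.filter_image, Finset.card_image_of_injective _ hX]

theorem Hv_HP {n : ℕ} {X : Fin n → ℝ × ℝ} (hX : Function.Injective X) {i j : Fin n} (hij : i ≠ j) :
    Hv (univ.image X) (X i) (X j) ↔ HP X i j := by
  unfold Hv HP
  rw [card_im hX, card_im hX, Finset.card_image_of_injective _ hX, Finset.card_univ,
    Fintype.card_fin]
  constructor
  · exact fun h => h.2
  · exact fun h => ⟨fun h' => hij (hX h'), h⟩

/-- the line of a halving pair -/
theorem bisector_of_HP {n : ℕ} {X : Fin n → ℝ × ℝ} (hX : Function.Injective X) {i j : Fin n}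
    (hij : i ≠ j) (h : HP X i j) : IsBisector (univ.image X) {x | cr (X i) (X j) x = 0} := by
  classical
  have hne : X i ≠ X j := fun h' => hij (hX h')
  refine ⟨-((X j).2 - (X i).2), (X j).1 - (X i).1,
    -((X j).2 - (X i).2) * (X i).1 + ((X j).1 - (X i).1) * (X i).2, line_ne hne, ?_, ?_, ?_, ?_⟩
  · ext x
    exact cr_line _ _ _
  · refine ⟨X i, mem_image_of_mem _ (mem_univ i), X j, mem_image_of_mem _ (mem_univ j), hne, ?_, ?_⟩
    · simp only [Set.mem_ofPred_eq]
      unfold cr
      ring
    · simp only [Set.mem_ofPred_eq]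
      unfold cr
      ring
  · rw [card_im hX, Finset.card_image_of_injective _ hX, Finset.card_univ, Fintype.card_fin, ← h.2]
    congr 1
    ext l
    simp only [mem_filter, mem_univ, true_and]
    unfold cr
    constructor <;> intro h' <;> linarith
  · rw [card_im hX, Finset.card_image_of_injective _ hX, Finset.card_univ, Fintype.card_fin, ← h.1]
    congr 1
    ext l
    simp only [mem_filter, mem_univ, true_and]
    unfold cr
    constructor <;> intro h' <;> linarith

theorem bis_eq {n : ℕ} (X : Fin n → ℝ × ℝ) (hX : Function.Injective X)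
    (hgp : GeneralPosition (univ.image X)) : bis X = hp X := by
  classical
  unfold bis hp
  set S : Finset (Fin n × Fin n) := {z : Fin n × Fin n | z.1 < z.2 ∧ HP X z.1 z.2} with hS
  have h1 : {L | IsBisector (univ.image X) L} =
      (fun z : Fin n × Fin n => {x | cr (X z.1) (X z.2) x = 0}) '' (S : Set (Fin n × Fin n)) := by
    ext L
    simp only [Set.mem_ofPred_eq, Set.mem_image, mem_coe]
    constructor
    · intro hL
      obtain ⟨a, b, c, hab, hLe, ⟨p, hp, q, hq, hpq, hpL, hqL⟩, h3, h4⟩ := id hL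
      obtain ⟨i, -, rfl⟩ := mem_image.1 hp
      obtain ⟨j, -, rfl⟩ := mem_image.1 hq
      have hij : i ≠ j := fun h => hpq (by rw [h])
      rcases lt_or_gt_of_ne hij with h | h
      · obtain ⟨h5, h6⟩ := hv_of_line hL hpq hpL hqL
        refine ⟨(i, j), ?_, h6.symm⟩
        rw [hS, mem_filter]
        exact ⟨mem_univ _, h, (Hv_HP hX hij).1 h5⟩
      · obtain ⟨h5, h6⟩ := hv_of_line hL hpq.symm hqL hpL
        refine ⟨(j, i), ?_, h6.symm⟩
        rw [hS, mem_filter]
        exact ⟨mem_univ _, h, (Hv_HP hX hij.symm).1 h5⟩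
    · rintro ⟨z, hz, rfl⟩
      rw [hS, mem_filter] at hz
      exact bisector_of_HP hX hz.2.1.ne hz.2.2
  rw [h1, Set.InjOn.ncard_image, Set.ncard_coe_finset]
  -- injectivity
  intro z hz z' hz' hzz
  rw [mem_coe, hS, mem_filter] at hz hz'
  have hline : ∀ l : Fin n, cr (X z.1) (X z.2) (X l) = 0 → l = z.1 ∨ l = z.2 := by
    intro l hl
    by_contra hcon
    push Not at hcon
    have hne : X z.1 ≠ X z.2 := fun h => hz.2.1.ne (hX h)
    have hin : ∀ m : Fin n, cr (X z.1) (X z.2) (X m) = 0 → X m ∈
      Line (-((X z.2).2 - (X z.1).2)) ((X z.2).1 - (X z.1).1)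
        (-((X z.2).2 - (X z.1).2) * (X z.1).1 + ((X z.2).1 - (X z.1).1) * (X z.1).2) := by
      intro m hm
      exact (cr_line _ _ _).1 hm
    refine hgp _ _ _ (line_ne hne) (X z.1) (mem_image_of_mem _ (mem_univ _)) (X z.2)
      (mem_image_of_mem _ (mem_univ _)) (X l) (mem_image_of_mem _ (mem_univ _)) hne
      (fun h => hcon.1 (hX h).symm) (fun h => hcon.2 (hX h).symm) ⟨hin z.1 ?_, hin z.2 ?_, hin l hl⟩
    · unfold cr; ring
    · unfold cr; ring
  have hset : ∀ x : ℝ × ℝ, cr (X z'.1) (X z'.2) x = 0 → cr (X z.1) (X z.2) x = 0 := by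
    intro x hx
    have h2 : x ∈ {x | cr (X z'.1) (X z'.2) x = 0} := hx
    simp only at hzz
    rw [← hzz] at h2
    exact h2
  have e1 := hline z'.1 (hset _ (by unfold cr; ring))
  have e2 := hline z'.2 (hset _ (by unfold cr; ring))
  have l1 := hz.2.1
  have l2 := hz'.2.1
  rcases e1 with e1 | e1 <;> rcases e2 with e2 | e2
  · rw [e1, e2] at l2
    exact absurd l2 (lt_irrefl _)
  · exact Prod.ext e1.symm e2.symm
  · rw [e1, e2] at l2
    exact absurd (l1.trans l2) (lt_irrefl _)
  · rw [e1, e2] at l2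
    exact absurd l2 (lt_irrefl _)

/-- [MEA] -/
theorem s_MEA : S_MEA := fun n => ⟨meas_hp n, fun X hX hgp => bis_eq X hX hgp⟩

end Pool.Agent.L7h22.RH
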